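import Pool.Agent.MP_28f1b9_co.H61.Defs

/-!
Averages, product functions, degree and the block structure of the cube.
-/

namespace Pool.Agent.MP_28f1b9_co.H61

open Finset

/-- The cube. -/
abbrev Cube (n : ℕ) : Type := Fin n → Bool

/-- Uniform average. -/
noncomputable def avg (n : ℕ) : (Cube n → ℝ) →ₗ[ℝ] ℝ where
  toFun φ := (∑ x, φ x) / 2 ^ n
  map_add' φ ψ := by simp [sum_add_distrib, add_div]
  map_smul' c φ := by simp [← mul_sum, mul_div_assoc]

theorem avg_apply {n : ℕ} (φ : Cube n → ℝ) : avg n φ = (∑ x, φ x) / 2 ^ n := rfl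

theorem avg_mono {n : ℕ} {φ ψ : Cube n → ℝ} (h : ∀ x, φ x ≤ ψ x) : avg n φ ≤ avg n ψ := by
  rw [avg_apply, avg_apply]
  gcongr with x
  exact h x

theorem avg_const {n : ℕ} (c : ℝ) : avg n (fun _ => c) = c := by
  rw [avg_apply]
  simp

theorem avg_one {n : ℕ} : avg n 1 = 1 := avg_const 1

theorem avg_nonneg {n : ℕ} {φ : Cube n → ℝ} (h : ∀ x, 0 ≤ φ x) : 0 ≤ avg n φ := by
  have := avg_mono (φ := fun _ => 0) h
  rwa [avg_const] at this

/-- A product function. -/
def pf {n : ℕ} (ψ : Fin n → Bool → ℝ) : Cube n → ℝ := fun x => ∏ i, ψ i (x i)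

open Classical in
/-- The number of nontrivial factors. -/
noncomputable def wt {n : ℕ} (ψ : Fin n → Bool → ℝ) : ℕ := (univ.filter fun i => ψ i ≠ 1).card

theorem avg_pf {n : ℕ} (ψ : Fin n → Bool → ℝ) :
    avg n (pf ψ) = ∏ i, (ψ i true + ψ i false) / 2 := by
  rw [avg_apply, prod_div_distrib]
  simp only [pf, prod_const, card_univ, Fintype.card_fin]
  congr 1
  rw [← Fintype.prod_sum]
  simp

/-- Functions of degree at most `d`. -/
def Deg (n d : ℕ) : Submodule ℝ (Cube n → ℝ) := Submodule.span ℝ {φ | ∃ ψ, wt ψ ≤ d ∧ φ = pf ψ}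

theorem pf_mem {n d : ℕ} {ψ : Fin n → Bool → ℝ} (h : wt ψ ≤ d) : pf ψ ∈ Deg n d :=
  Submodule.subset_span ⟨ψ, h, rfl⟩

theorem Deg_mono {n a b : ℕ} (h : a ≤ b) : Deg n a ≤ Deg n b :=
  Submodule.span_mono fun _ ⟨ψ, h1, h2⟩ => ⟨ψ, h1.trans h, h2⟩

theorem one_mem_Deg (n d : ℕ) : (1 : Cube n → ℝ) ∈ Deg n d := by
  have : (1 : Cube n → ℝ) = pf 1 := by ext x; simp [pf]
  rw [this]
  exact pf_mem (by simp [wt])

theorem wt_mul {n : ℕ} (ψ χ : Fin n → Bool → ℝ) : wt (ψ * χ) ≤ wt ψ + wt χ := by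
  classical
  unfold wt
  refine le_trans (card_le_card ?_) (card_union_le _ _)
  intro i hi
  simp only [mem_filter, mem_univ, true_and, mem_union] at hi ⊢
  by_contra hh
  push Not at hh
  exact hi (by simp [hh.1, hh.2])

theorem Deg_mul {n a b : ℕ} {φ χ : Cube n → ℝ} (h1 : φ ∈ Deg n a) (h2 : χ ∈ Deg n b) :
    φ * χ ∈ Deg n (a + b) := by
  have := Submodule.mul_mem_mul h1 h2
  rw [Deg, Deg, Submodule.span_mul_span] at this
  refine Submodule.span_mono ?_ this
  rintro _ ⟨_, ⟨ψ, k1, rfl⟩, _, ⟨ψ', k2, rfl⟩, rfl⟩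
  refine ⟨ψ * ψ', (wt_mul _ _).trans (add_le_add k1 k2), ?_⟩
  ext x
  simp [pf, prod_mul_distrib]

/-- Positions as pairs. -/
def posE (h : ℕ) : Fin 3 × Fin (3 ^ h) ≃ Fin (3 ^ (h + 1)) :=
  finProdFinEquiv.trans (finCongr (by ring))

theorem posE_apply (h : ℕ) (j : Fin 3) (i : Fin (3 ^ h)) : posE h (j, i) = pos h j i := by
  ext
  simp [posE, pos]
  ring

/-- The block `j` of a point. -/
def blk (h : ℕ) (j : Fin 3) (x : Cube (3 ^ (h + 1))) : Cube (3 ^ h) := fun i => x (pos h j i)

/-- A point is a triple of blocks. -/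
def blkE (h : ℕ) : Cube (3 ^ (h + 1)) ≃ Cube (3 ^ h) × Cube (3 ^ h) × Cube (3 ^ h) where
  toFun x := (blk h 0 x, blk h 1 x, blk h 2 x)
  invFun y := fun k => ![y.1, y.2.1, y.2.2] ((posE h).symm k).1 ((posE h).symm k).2
  left_inv x := by
    ext k
    obtain ⟨⟨j, i⟩, rfl⟩ := (posE h).surjective k
    simp only [Equiv.symm_apply_apply]
    rw [posE_apply]
    fin_cases j <;> rfl
  right_inv y := by
    ext i <;> simp [blk, ← posE_apply]

/-- The tensor product of three functions. -/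
def T3 (h : ℕ) (a b c : Cube (3 ^ h) → ℝ) : Cube (3 ^ (h + 1)) → ℝ :=
  fun x => a (blk h 0 x) * b (blk h 1 x) * c (blk h 2 x)

theorem avg_T3 (h : ℕ) (a b c : Cube (3 ^ h) → ℝ) :
    avg _ (T3 h a b c) = avg _ a * avg _ b * avg _ c := by
  simp only [avg_apply]
  have : ∑ x, T3 h a b c x = ∑ y : Cube (3 ^ h) × Cube (3 ^ h) × Cube (3 ^ h),
      a y.1 * b y.2.1 * c y.2.2 := Fintype.sum_equiv (blkE h) _ _ fun x => rfl
  rw [this, Fintype.sum_prod_type]
  simp only [Fintype.sum_prod_type, mul_assoc, ← mul_sum, ← sum_mul]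
  rw [pow_succ 3 h, pow_mul]
  field_simp

theorem pf_split (h : ℕ) (ψ : Fin (3 ^ (h + 1)) → Bool → ℝ) :
    pf ψ = T3 h (pf fun i => ψ (pos h 0 i)) (pf fun i => ψ (pos h 1 i))
      (pf fun i => ψ (pos h 2 i)) := by
  ext x
  simp only [pf, T3, blk]
  rw [← (posE h).prod_comp, Fintype.prod_prod_type, Fin.prod_univ_three]
  simp only [posE_apply]

theorem wt_split (h : ℕ) (ψ : Fin (3 ^ (h + 1)) → Bool → ℝ) :
    wt ψ = wt (fun i => ψ (pos h 0 i)) + wt (fun i => ψ (pos h 1 i)) +
      wt (fun i => ψ (pos h 2 i)) := by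
  simp only [wt, card_filter]
  rw [← (posE h).sum_comp, Fintype.sum_prod_type, Fin.sum_univ_three]
  simp only [posE_apply]

theorem T3_mul (h : ℕ) (a b c a' b' c' : Cube (3 ^ h) → ℝ) :
    T3 h a b c * T3 h a' b' c' = T3 h (a * a') (b * b') (c * c') := by
  ext x
  simp only [T3, Pi.mul_apply]
  ring

theorem Deg_blk (h : ℕ) (j : Fin 3) {d : ℕ} {φ : Cube (3 ^ h) → ℝ} (hφ : φ ∈ Deg _ d) :
    (fun x => φ (blk h j x)) ∈ Deg (3 ^ (h + 1)) d := by
  induction hφ using Submodule.span_induction with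
  | mem φ hφ =>
    obtain ⟨ψ, h1, rfl⟩ := hφ
    set χ : Fin (3 ^ (h + 1)) → Bool → ℝ :=
      fun k => if ((posE h).symm k).1 = j then ψ ((posE h).symm k).2 else 1 with hχ
    have e : ∀ j' i, χ (pos h j' i) = if j' = j then ψ i else 1 := by
      intro j' i
      simp [hχ, ← posE_apply]
    have w1 : wt (1 : Fin (3 ^ h) → Bool → ℝ) = 0 := by simp [wt]
    have w1' : wt (fun _ : Fin (3 ^ h) => (1 : Bool → ℝ)) = 0 := w1
    have p1 : pf (fun _ : Fin (3 ^ h) => (1 : Bool → ℝ)) = 1 := by ext x; simp [pf]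
    have : (fun x => pf ψ (blk h j x)) = pf χ := by
      rw [pf_split]
      simp only [e]
      fin_cases j <;> ext x <;> simp [T3, p1]
    rw [this]
    refine pf_mem ?_
    rw [wt_split]
    simp only [e]
    fin_cases j <;> simpa [w1'] using h1
  | zero => exact Submodule.zero_mem _
  | add φ χ _ _ h1 h2 => exact Submodule.add_mem _ h1 h2
  | smul c φ _ h1 => exact Submodule.smul_mem _ c h1

theorem Deg_T3 (h : ℕ) {d₁ d₂ d₃ : ℕ} {a b c : Cube (3 ^ h) → ℝ} (ha : a ∈ Deg _ d₁)
    (hb : b ∈ Deg _ d₂) (hc : c ∈ Deg _ d₃) : T3 h a b c ∈ Deg _ (d₁ + d₂ + d₃) :=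
  Deg_mul (Deg_mul (Deg_blk h 0 ha) (Deg_blk h 1 hb)) (Deg_blk h 2 hc)

/-! Distributions in the class and low degree functions. -/

theorem InA.half {n k : ℕ} {Q : Cube n → ℝ} (hQ : InA n k (1 / 2) Q) (i : Fin n) (b : Bool) :
    prob Q (fun x => x i = b) = 1 / 2 := by
  have h1 := hQ.marg i
  cases b
  · have : prob Q (fun x => x i = false) + prob Q (fun x => x i = true) = 1 := by
      rw [← hQ.total, prob, prob, ← sum_add_distrib]
      refine sum_congr rfl fun x _ => ?_
      cases x i <;> simp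
    linarith
  · exact h1

open Classical in
theorem InA.aux {n k : ℕ} {Q : Cube n → ℝ} (hQ : InA n k (1 / 2) Q) (ψ : Fin n → Bool → ℝ)
    (S : Finset (Fin n)) : ∀ (T : Finset (Fin n)) (a : Cube n), Disjoint S T →
      S.card + T.card ≤ k →
      ∑ x, (∏ i ∈ S, ψ i (x i)) * (if ∀ i ∈ T, x i = a i then Q x else 0) =
        (∏ i ∈ S, (ψ i true + ψ i false) / 2) * (1 / 2) ^ T.card := by
  induction S using Finset.induction_on with
  | empty =>
    intro T a _ hk
    have := hQ.indep T (by simpa using hk) a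
    simp only [hQ.half, prod_const] at this
    simp only [prod_empty, one_mul]
    rw [← this, prob]
    exact sum_congr rfl fun x _ => by congr
  | insert j S hj ih =>
    intro T a hd hk
    rw [disjoint_insert_left] at hd
    rw [card_insert_of_notMem hj] at hk
    have key : ∀ b : Bool, ∑ x : Cube n, (∏ i ∈ S, ψ i (x i)) *
        (if x j = b ∧ ∀ i ∈ T, x i = a i then Q x else 0) =
        (∏ i ∈ S, (ψ i true + ψ i false) / 2) * (1 / 2) ^ (T.card + 1) := by
      intro b
      have := ih (insert j T) (Function.update a j b) (by simp [hj, hd.2])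
        (by rw [card_insert_of_notMem hd.1]; omega)
      rw [card_insert_of_notMem hd.1] at this
      rw [← this]
      refine sum_congr rfl fun x _ => ?_
      congr 1
      refine if_congr ?_ rfl rfl
      simp only [mem_insert, forall_eq_or_imp, Function.update_self]
      refine and_congr_right fun _ => forall₂_congr fun i hi => ?_
      rw [Function.update_of_ne (by rintro rfl; exact hd.1 hi)]
    simp only [prod_insert hj]
    have e : ∀ x : Cube n, ψ j (x j) * (∏ i ∈ S, ψ i (x i)) *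
        (if ∀ i ∈ T, x i = a i then Q x else 0) =
        ψ j true * ((∏ i ∈ S, ψ i (x i)) *
          (if x j = true ∧ ∀ i ∈ T, x i = a i then Q x else 0)) +
        ψ j false * ((∏ i ∈ S, ψ i (x i)) *
          (if x j = false ∧ ∀ i ∈ T, x i = a i then Q x else 0)) := by
      intro x
      cases x j <;> simp [mul_assoc]
    simp only [e, sum_add_distrib, ← mul_sum, key]
    ring

/-- Expectation under weights. -/
def ex {n : ℕ} (Q : Cube n → ℝ) : (Cube n → ℝ) →ₗ[ℝ] ℝ where
  toFun φ := ∑ x, φ x * Q x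
  map_add' φ ψ := by simp [sum_add_distrib, add_mul]
  map_smul' c φ := by simp [mul_sum, mul_assoc]

theorem InA.fool {n k : ℕ} {Q : Cube n → ℝ} (hQ : InA n k (1 / 2) Q) {φ : Cube n → ℝ}
    (hφ : φ ∈ Deg n k) : ex Q φ = avg n φ := by
  classical
  induction hφ using Submodule.span_induction with
  | mem φ hφ =>
    obtain ⟨ψ, h1, rfl⟩ := hφ
    have := hQ.aux ψ (univ.filter fun i => ψ i ≠ 1) ∅ (fun _ => true) (by simp)
      (by simpa [wt] using h1)
    simp only [notMem_empty, IsEmpty.forall_iff, implies_true, if_true, card_empty, pow_zero,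
      mul_one] at this
    rw [avg_pf, ← prod_filter_of_ne (p := fun i => ψ i ≠ 1) (by
      intro i _ hi h2
      exact hi (by simp [h2])), ← this]
    refine sum_congr rfl fun x _ => ?_
    rw [prod_filter_of_ne (by
      intro i _ hi h2
      exact hi (by simp [h2]))]
    rfl
  | zero => simp
  | add φ χ _ _ h1 h2 => simp [h1, h2]
  | smul c φ _ h1 => simp [h1]

/-- A bounded perturbation of the uniform law by a function of pure high degree. -/
theorem InA_of_pure {n k : ℕ} (ψ : Cube n → ℝ) (hb : ∀ x, |ψ x| ≤ 1)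
    (hp : ∀ χ, wt χ ≤ max k 1 → avg n (ψ * pf χ) = 0) :
    InA n k (1 / 2) fun x => (1 + ψ x) / 2 ^ n := by
  classical
  have cyl : ∀ (S : Finset (Fin n)) (a : Cube n), S.card ≤ max k 1 →
      prob (fun x => (1 + ψ x) / 2 ^ n) (fun x => ∀ i ∈ S, x i = a i) = (1 / 2) ^ S.card := by
    intro S a hS
    set χ : Fin n → Bool → ℝ := fun i => if i ∈ S then fun b => if b = a i then 1 else 0 else 1
      with hχ
    have hw : wt χ ≤ max k 1 := by
      refine le_trans (card_le_card fun i hi => ?_) hS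
      by_contra h2
      simp [hχ, h2] at hi
    have e : ∀ x : Cube n, pf χ x = if ∀ i ∈ S, x i = a i then 1 else 0 := by
      intro x
      split_ifs with h2
      · refine prod_eq_one fun i _ => ?_
        by_cases h3 : i ∈ S <;> simp [hχ, h3, h2]
      · push Not at h2
        obtain ⟨i, h3, h4⟩ := h2
        exact prod_eq_zero (mem_univ i) (by simp [hχ, h3, h4])
    have e2 : avg n (pf χ) = (1 / 2) ^ S.card := by
      rw [avg_pf, ← prod_const, ← prod_ite_mem_eq S]
      refine prod_congr rfl fun i _ => ?_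
      by_cases h3 : i ∈ S
      · cases h4 : a i <;> simp [hχ, h3, h4]
      · simp [hχ, h3]
    have e3 := hp χ hw
    rw [← e2, ← add_zero (avg n (pf χ)), ← e3, ← map_add, avg_apply, prob, sum_div]
    refine sum_congr rfl fun x _ => ?_
    simp only [Pi.add_apply, Pi.mul_apply, e]
    split_ifs <;> simp
  have one : ∀ (i : Fin n) (b : Bool),
      prob (fun x => (1 + ψ x) / 2 ^ n) (fun x => x i = b) = 1 / 2 := by
    intro i b
    simpa using cyl {i} (fun _ => b) (by simp)
  refine ⟨fun x => ?_, ?_, fun i => one i true, fun S hS a => ?_⟩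
  · have := abs_le.mp (hb x)
    have : 0 ≤ 1 + ψ x := by linarith
    positivity
  · simpa [prob] using cyl ∅ (fun _ => true) (by simp)
  · rw [cyl S a (hS.trans (le_max_left _ _))]
    simp only [one, prod_const]

end Pool.Agent.MP_28f1b9_co.H61
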