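import Mathlib

/-!
Definitions: k-wise independent distributions, the quantity epsilon and iterated majority.
-/

namespace Pool.Agent.MP_28f1b9_co.H61

open Filter Topology

/-- Position `i` of block `j` when `3 ^ (h + 1)` positions are cut into three consecutive blocks
of length `3 ^ h`. -/
def pos (h : ℕ) (j : Fin 3) (i : Fin (3 ^ h)) : Fin (3 ^ (h + 1)) :=
  ⟨j * 3 ^ h + i, by
    have h1 := j.2
    have h2 := i.2
    have h3 : (j : ℕ) * 3 ^ h ≤ 2 * 3 ^ h := Nat.mul_le_mul_right _ (by omega)
    rw [pow_succ]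
    omega⟩

/-- Majority of three bits. -/
def maj3 (a b c : Bool) : Bool := (a && b) || (a && c) || (b && c)

/-- Iterated majority of threes on `3 ^ h` bits. -/
def R : (h : ℕ) → (Fin (3 ^ h) → Bool) → Bool
  | 0, x => x ⟨0, by norm_num⟩
  | h + 1, x => maj3 (R h fun i => x (pos h 0 i)) (R h fun i => x (pos h 1 i))
      (R h fun i => x (pos h 2 i))

open Classical in
/-- The probability of the event `E` under the weights `Q`. -/
noncomputable def prob {n : ℕ} (Q : (Fin n → Bool) → ℝ) (E : (Fin n → Bool) → Prop) : ℝ :=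
  ∑ x, if E x then Q x else 0

/-- `Q` is a probability distribution on `n` bits with all marginals `p` under which every set of
at most `k` coordinates is mutually independent. -/
structure InA (n k : ℕ) (p : ℝ) (Q : (Fin n → Bool) → ℝ) : Prop where
  nonneg : ∀ x, 0 ≤ Q x
  total : ∑ x, Q x = 1
  marg : ∀ i, prob Q (fun x => x i = true) = p
  indep : ∀ S : Finset (Fin n), S.card ≤ k → ∀ a : Fin n → Bool,
    prob Q (fun x => ∀ i ∈ S, x i = a i) = ∏ i ∈ S, prob Q (fun x => x i = a i)

/-- The set of values `Q(f = 1)`, `Q` in the class. -/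
def vals {n : ℕ} (f : (Fin n → Bool) → Bool) (k : ℕ) (p : ℝ) : Set ℝ :=
  {t | ∃ Q, InA n k p Q ∧ t = prob Q fun x => f x = true}

/-- The largest minus the smallest value of `Q(f = 1)`. -/
noncomputable def eps {n : ℕ} (f : (Fin n → Bool) → Bool) (k : ℕ) (p : ℝ) : ℝ :=
  sSup (vals f k p) - sInf (vals f k p)

/-- The function `k` belongs to the class `K₂` of iterated majority of threes. -/
def InK2 (k : ℕ → ℕ) : Prop :=
  Tendsto (fun h : ℕ => eps (R h) (k (3 ^ h)) (1 / 2)) atTop (𝓝 0)

end Pool.Agent.MP_28f1b9_co.H61
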