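import Pool.Agent.MP_28f1b9_co.H61.Basic

/-!
The homogeneous parts of iterated majority and their correlations.
-/

namespace Pool.Agent.MP_28f1b9_co.H61

open Finset Polynomial

/-- The sign of a bit. -/
def sg (b : Bool) : ℝ := if b then 1 else -1

/-- The multilinear form of majority of three. -/
noncomputable def mj (a b c : ℝ) : ℝ := (a + b + c - a * b * c) / 2

/-- The generating polynomial of the homogeneous parts. -/
noncomputable def F : (h : ℕ) → Cube (3 ^ h) → ℝ[X]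
  | 0, x => C (sg (x ⟨0, by norm_num⟩)) * X
  | h + 1, x => C (1 / 2) * (F h (blk h 0 x) + F h (blk h 1 x) + F h (blk h 2 x) -
      F h (blk h 0 x) * F h (blk h 1 x) * F h (blk h 2 x))

/-- The noise operator applied to iterated majority. -/
noncomputable def M (h : ℕ) (w : ℝ) : Cube (3 ^ h) → ℝ := fun x => (F h x).eval w

/-- The homogeneous part of degree `j`. -/
noncomputable def cf (h j : ℕ) : Cube (3 ^ h) → ℝ := fun x => (F h x).coeff j

/-- Iterated majority with values `1` and `-1`. -/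
def f (h : ℕ) : Cube (3 ^ h) → ℝ := fun x => sg (R h x)

/-- Majority of three copies of a function. -/
noncomputable def MJ (h : ℕ) (a : Cube (3 ^ h) → ℝ) : Cube (3 ^ (h + 1)) → ℝ :=
  fun x => mj (a (blk h 0 x)) (a (blk h 1 x)) (a (blk h 2 x))

theorem MJ_eq (h : ℕ) (a : Cube (3 ^ h) → ℝ) :
    MJ h a = (1 / 2 : ℝ) • (T3 h a 1 1 + T3 h 1 a 1 + T3 h 1 1 a - T3 h a a a) := by
  ext x
  simp [MJ, mj, T3]
  ring

theorem M_succ (h : ℕ) (w : ℝ) : M (h + 1) w = MJ h (M h w) := by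
  ext x
  simp [M, F, MJ, mj]
  ring

theorem M_zero (w : ℝ) (x : Cube (3 ^ 0)) : M 0 w x = sg (x ⟨0, by norm_num⟩) * w := by
  simp [M, F]

theorem sg_maj (a b c : Bool) : sg (maj3 a b c) = mj (sg a) (sg b) (sg c) := by
  cases a <;> cases b <;> cases c <;> simp [sg, maj3, mj] <;> norm_num

theorem f_succ (h : ℕ) : f (h + 1) = MJ h (f h) := by
  ext x
  exact sg_maj _ _ _

theorem M_one (h : ℕ) : M h 1 = f h := by
  induction h with
  | zero => ext x; rw [M_zero, mul_one]; rfl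
  | succ h ih => rw [M_succ, ih, f_succ]

theorem f_sq (h : ℕ) (x : Cube (3 ^ h)) : f h x ^ 2 = 1 := by
  unfold f sg
  split_ifs <;> norm_num

theorem abs_mj_le {a b c : ℝ} (ha : |a| ≤ 1) (hb : |b| ≤ 1) (hc : |c| ≤ 1) : |mj a b c| ≤ 1 := by
  rw [abs_le] at *
  obtain ⟨a1, a2⟩ := ha
  obtain ⟨b1, b2⟩ := hb
  obtain ⟨c1, c2⟩ := hc
  have p1 : 0 ≤ 1 - a := by linarith
  have p2 : 0 ≤ 1 - b := by linarith
  have p3 : 0 ≤ 1 - c := by linarith
  have q1 : 0 ≤ 1 + a := by linarith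
  have q2 : 0 ≤ 1 + b := by linarith
  have q3 : 0 ≤ 1 + c := by linarith
  unfold mj
  constructor
  · have : 0 ≤ (1 + a) * (1 + b) * (1 + c) + (1 + a) * (1 + b) * (1 - c) +
      (1 + a) * (1 - b) * (1 + c) + (1 - a) * (1 + b) * (1 + c) := by positivity
    nlinarith
  · have : 0 ≤ (1 - a) * (1 - b) * (1 - c) + (1 - a) * (1 - b) * (1 + c) +
      (1 - a) * (1 + b) * (1 - c) + (1 + a) * (1 - b) * (1 - c) := by positivity
    nlinarith

theorem abs_sg (b : Bool) : |sg b| = 1 := by cases b <;> simp [sg]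

theorem abs_M_le (h : ℕ) {w : ℝ} (hw : |w| ≤ 1) (x : Cube (3 ^ h)) : |M h w x| ≤ 1 := by
  induction h with
  | zero => rw [M_zero, abs_mul, abs_sg, one_mul]; exact hw
  | succ h ih => rw [M_succ]; exact abs_mj_le (ih _) (ih _) (ih _)

theorem avg_MJ_T3 (h : ℕ) (a p q r : Cube (3 ^ h) → ℝ) :
    avg _ (MJ h a * T3 h p q r) = (avg _ (a * p) * avg _ q * avg _ r +
      avg _ p * avg _ (a * q) * avg _ r + avg _ p * avg _ q * avg _ (a * r) -
      avg _ (a * p) * avg _ (a * q) * avg _ (a * r)) / 2 := by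
  rw [MJ_eq]
  simp only [smul_mul_assoc, add_mul, sub_mul, T3_mul, map_smul, map_add, map_sub, avg_T3, one_mul,
    smul_eq_mul]
  ring

theorem T3_one (h : ℕ) : T3 h 1 1 1 = 1 := by ext x; simp [T3]

theorem pf_zero (χ : Fin (3 ^ 0) → Bool → ℝ) (x : Cube (3 ^ 0)) :
    pf χ x = χ ⟨0, by norm_num⟩ (x ⟨0, by norm_num⟩) := by
  change ∏ i : Fin 1, χ i (x i) = _
  rw [Fin.prod_univ_one]
  rfl

theorem avg_zero_fun (φ : Bool → ℝ) :
    avg (3 ^ 0) (fun x => φ (x ⟨0, by norm_num⟩)) = (φ true + φ false) / 2 := by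
  have : (fun x : Cube (3 ^ 0) => φ (x ⟨0, by norm_num⟩)) = pf fun _ => φ := by
    ext x; rw [pf_zero]
  rw [this, avg_pf]
  simp

theorem avg_M (h : ℕ) (w : ℝ) : avg _ (M h w) = 0 := by
  induction h with
  | zero =>
    have := avg_zero_fun fun b => sg b * w
    simp only [← M_zero] at this
    rw [this]
    simp [sg]
  | succ h ih =>
    have := avg_MJ_T3 h (M h w) 1 1 1
    rw [T3_one, mul_one] at this
    rw [M_succ, this]
    simp [ih]

/-- The noise stability polynomial. -/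
noncomputable def G : ℕ → ℝ[X]
  | 0 => X
  | h + 1 => C (1 / 4) * (C 3 * G h + G h ^ 3)

theorem G_succ (h : ℕ) (w : ℝ) :
    (G (h + 1)).eval w = (3 * (G h).eval w + (G h).eval w ^ 3) / 4 := by
  simp [G]
  ring

theorem corr (h : ℕ) (w v : ℝ) : avg _ (M h w * M h v) = (G h).eval (w * v) := by
  induction h with
  | zero =>
    have := avg_zero_fun fun b => sg b * w * (sg b * v)
    simp only [← M_zero] at this
    refine this.trans ?_
    simp [sg, G]
  | succ h ih =>
    rw [M_succ, M_succ, MJ_eq h (M h v), G_succ]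
    simp only [mul_smul_comm, mul_add, mul_sub, map_smul, map_add, map_sub, avg_MJ_T3, mul_one,
      avg_one, avg_M, ih, smul_eq_mul]
    ring

theorem avg_cf {h : ℕ} (a : Cube (3 ^ h) → ℝ) (p : ℝ[X])
    (hp : ∀ w, avg _ (a * M h w) = p.eval w) (j : ℕ) : avg _ (a * cf h j) = p.coeff j := by
  have : C (1 / 2 ^ (3 ^ h) : ℝ) * ∑ x, C (a x) * F h x = p := by
    refine Polynomial.funext fun w => ?_
    rw [← hp, avg_apply]
    simp [eval_finsetSum, M]
    ring
  rw [← this, avg_apply]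
  simp [cf]
  ring

theorem avg_cf_zero (h j : ℕ) : avg _ (cf h j) = 0 := by
  simpa using avg_cf (h := h) 1 0 (fun w => by simp [avg_M]) j

theorem avg_M_cf (h j : ℕ) (w : ℝ) : avg _ (M h w * cf h j) = (G h).coeff j * w ^ j := by
  rw [avg_cf (M h w) ((G h).comp (C w * X)) (fun v => by simp [corr, eval_comp]),
    comp_C_mul_X_coeff]

theorem avg_cf_cf (h i j : ℕ) :
    avg _ (cf h i * cf h j) = if i = j then (G h).coeff i else 0 := by
  rw [avg_cf (cf h i) (monomial i ((G h).coeff i))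
    (fun v => by rw [mul_comm, avg_M_cf, eval_monomial]), coeff_monomial]

theorem G_coeff_nonneg (h j : ℕ) : 0 ≤ (G h).coeff j := by
  have := avg_cf_cf h j j
  rw [if_pos rfl] at this
  rw [← this]
  exact avg_nonneg fun x => mul_self_nonneg _

theorem G_one (h : ℕ) : (G h).eval 1 = 1 := by
  induction h with
  | zero => simp [G]
  | succ h ih => rw [G_succ, ih]; norm_num

theorem cf_mem (h : ℕ) : ∀ j, cf h j ∈ Deg _ j := by
  induction h with
  | zero =>
    intro j
    by_cases hj : j = 1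
    · subst hj
      have : cf 0 1 = pf fun _ => sg := by ext x; rw [pf_zero]; simp [cf, F]
      rw [this]
      exact pf_mem ((card_le_univ _).trans (by simp))
    · have : cf 0 j = 0 := by ext x; simp [cf, F, coeff_X, Ne.symm hj]
      rw [this]
      exact Submodule.zero_mem _
  | succ h ih =>
    intro j
    have : cf (h + 1) j = (1 / 2 : ℝ) • (T3 h (cf h j) 1 1 + T3 h 1 (cf h j) 1 +
        T3 h 1 1 (cf h j) - ∑ p ∈ antidiagonal j, ∑ q ∈ antidiagonal p.1,
          T3 h (cf h q.1) (cf h q.2) (cf h p.2)) := by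
      ext x
      simp only [cf, F, coeff_C_mul, coeff_sub, coeff_add, Pi.smul_apply, Pi.sub_apply,
        Pi.add_apply, Finset.sum_apply, T3, Pi.one_apply, mul_one, one_mul, smul_eq_mul]
      simp only [coeff_mul, sum_mul]
    rw [this]
    have o := one_mem_Deg (3 ^ h) 0
    refine Submodule.smul_mem _ _ (Submodule.sub_mem _ (Submodule.add_mem _ (Submodule.add_mem _
      ?_ ?_) ?_) (Submodule.sum_mem _ fun p hp => Submodule.sum_mem _ fun q hq => ?_))
    · simpa using Deg_T3 h (ih j) o o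
    · simpa using Deg_T3 h o (ih j) o
    · simpa using Deg_T3 h o o (ih j)
    · have := Deg_T3 h (ih q.1) (ih q.2) (ih p.2)
      rwa [mem_antidiagonal.mp hq, mem_antidiagonal.mp hp] at this

/-- The truncation at degree `d`. -/
noncomputable def P (h d : ℕ) : Cube (3 ^ h) → ℝ := ∑ j ∈ range (d + 1), cf h j

theorem P_mem (h d : ℕ) : P h d ∈ Deg _ d :=
  Submodule.sum_mem _ fun j hj => Deg_mono (by simpa [Nat.lt_succ_iff] using hj) (cf_mem h j)

theorem avg_P (h d : ℕ) : avg _ (P h d) = 0 := by simp [P, avg_cf_zero]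

theorem avg_f_P (h d : ℕ) : avg _ (f h * P h d) = ∑ j ∈ range (d + 1), (G h).coeff j := by
  simp [P, mul_sum, ← M_one, avg_M_cf]

theorem avg_P_P (h d : ℕ) : avg _ (P h d * P h d) = ∑ j ∈ range (d + 1), (G h).coeff j := by
  rw [P, sum_mul_sum]
  simp only [map_sum, avg_cf_cf]
  refine sum_congr rfl fun i hi => ?_
  rw [sum_ite_eq, if_pos hi]

theorem G_tail (h d : ℕ) {w : ℝ} (hw : 1 ≤ w) :
    0 ≤ 1 - ∑ j ∈ range (d + 1), (G h).coeff j ∧
      (1 - ∑ j ∈ range (d + 1), (G h).coeff j) * w ^ d ≤ (G h).eval w := by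
  set N := max ((G h).natDegree + 1) (d + 1) with hN
  have h1 : (G h).natDegree < N := lt_of_lt_of_le (Nat.lt_succ_self _) (le_max_left _ _)
  have h2 : d + 1 ≤ N := le_max_right _ _
  have e1 : 1 - ∑ j ∈ range (d + 1), (G h).coeff j = ∑ j ∈ Ico (d + 1) N, (G h).coeff j := by
    rw [sum_Ico_eq_sub _ h2]
    congr 1
    have := eval_eq_sum_range' h1 (1 : ℝ)
    simpa [G_one] using this
  rw [e1]
  refine ⟨sum_nonneg fun j _ => G_coeff_nonneg h j, ?_⟩
  rw [eval_eq_sum_range' h1, sum_mul]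
  have w0 : 0 ≤ w := by linarith
  calc _ ≤ ∑ j ∈ Ico (d + 1) N, (G h).coeff j * w ^ j := by
        refine sum_le_sum fun j hj => mul_le_mul_of_nonneg_left ?_ (G_coeff_nonneg h j)
        exact pow_le_pow_right₀ hw (by have := (mem_Ico.mp hj).1; omega)
    _ ≤ _ := by
        refine sum_le_sum_of_subset_of_nonneg (fun j hj => ?_) fun j _ _ => ?_
        · exact mem_range.mpr (mem_Ico.mp hj).2
        · have := G_coeff_nonneg h j
          positivity

theorem G_up (j : ℕ) (u : ℝ) (hu : 0 ≤ u) : ∀ a : ℝ, 1 ≤ a →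
    u * ((3 / 2) ^ j * (a + 4 / 3) - 4 / 3) ≤ 1 →
    0 ≤ (G j).eval (1 + u) - 1 ∧ ((G j).eval (1 + u) - 1) * a ≤ 1 := by
  induction j with
  | zero =>
    intro a _ h
    simp only [G, eval_X]
    constructor
    · linarith
    · nlinarith
  | succ j ih =>
    intro a ha h
    obtain ⟨h1, h2⟩ := ih (3 / 2 * a + 2 / 3) (by linarith) (by rw [pow_succ] at h; linarith)
    rw [G_succ]
    set y := (G j).eval (1 + u) - 1 with hy
    have e : (G j).eval (1 + u) = 1 + y := by linarith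
    rw [e]
    have y1 : y ≤ 1 := by nlinarith
    have y2 : 0 ≤ y ^ 2 := by positivity
    have y3 : y ^ 3 ≤ y ^ 2 := by nlinarith
    have y4 : 0 ≤ y ^ 3 := by positivity
    have e2 : (3 * (1 + y) + (1 + y) ^ 3) / 4 - 1 = 3 / 2 * y + 3 / 4 * y ^ 2 + y ^ 3 / 4 := by
      ring
    rw [e2]
    refine ⟨by positivity, ?_⟩
    have s1 : (3 / 2 * y + 3 / 4 * y ^ 2 + y ^ 3 / 4) * a ≤ (3 / 2 * y + y ^ 2) * a :=
      mul_le_mul_of_nonneg_right (by linarith) (by linarith)
    have s2 : y * (y * (3 / 2 * a + 2 / 3)) ≤ y * 1 := by gcongr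
    nlinarith

theorem G_down (j : ℕ) (u v : ℝ) (hu : 0 ≤ u) (hu1 : u ≤ 1) (hv : 0 ≤ v) (huv : 1 ≤ u * v) :
    0 ≤ (G j).eval (1 - u) ∧ (G j).eval (1 - u) ≤ 1 ∧
      1 ≤ (1 - (G j).eval (1 - u)) * ((2 / 3) ^ j * v + 2) := by
  induction j with
  | zero =>
    simp only [G, eval_X]
    refine ⟨by linarith, by linarith, by nlinarith⟩
  | succ j ih =>
    obtain ⟨h1, h2, h3⟩ := ih
    rw [G_succ]
    set y := 1 - (G j).eval (1 - u) with hy
    have e : (G j).eval (1 - u) = 1 - y := by linarith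
    have y0 : 0 ≤ y := by linarith
    have y1 : y ≤ 1 := by linarith
    rw [e]
    have z0 : 0 ≤ 1 - y := by linarith
    have e2 : 1 - (3 * (1 - y) + (1 - y) ^ 3) / 4 = 3 / 2 * y - 3 / 4 * y ^ 2 + y ^ 3 / 4 := by
      ring
    have y4 : 0 ≤ y ^ 3 := by positivity
    refine ⟨by positivity, by nlinarith, ?_⟩
    rw [e2, pow_succ (2 / 3 : ℝ)]
    set b := (2 / 3 : ℝ) ^ j * v + 2 with hb
    have b2 : 2 ≤ b := by
      have : 0 ≤ (2 / 3 : ℝ) ^ j * v := by positivity
      linarith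
    have e3 : (2 / 3 : ℝ) ^ j * (2 / 3) * v + 2 = 2 / 3 * (b + 1) := by rw [hb]; ring
    rw [e3]
    have s1 : (1 - y / 2) * 1 ≤ (1 - y / 2) * (y * b) := by gcongr; linarith
    have s2 : 0 ≤ y ^ 3 * (b + 1) := by positivity
    nlinarith

theorem G_abs (j : ℕ) {x a : ℝ} (h : |x| ≤ a) : |(G j).eval x| ≤ (G j).eval a := by
  induction j with
  | zero => simpa [G] using h
  | succ j ih =>
    rw [G_succ, G_succ, abs_div]
    have h0 := abs_nonneg ((G j).eval x)
    have : |3 * (G j).eval x + (G j).eval x ^ 3| ≤ 3 * (G j).eval a + (G j).eval a ^ 3 := by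
      refine (abs_add_le _ _).trans ?_
      rw [abs_mul, abs_pow, abs_of_pos (by norm_num : (0 : ℝ) < 3)]
      gcongr
    rw [abs_of_pos (by norm_num : (0 : ℝ) < 4)]
    linarith

end Pool.Agent.MP_28f1b9_co.H61
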