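import Pool.Agent.MP_28f1b9_co.H61.Upper

/-!
Lower bound: bounded functions of pure high degree correlated with iterated majority.
-/

namespace Pool.Agent.MP_28f1b9_co.H61

open Finset Polynomial

theorem pure_deg (h : ℕ) : ∀ χ : Fin (3 ^ h) → Bool → ℝ,
    ∃ p : ℝ[X], p.natDegree ≤ wt χ ∧ ∀ w, avg _ (M h w * pf χ) = p.eval w := by
  induction h with
  | zero =>
    intro χ
    set φ := χ ⟨0, by norm_num⟩ with hφ
    have e : ∀ w, avg _ (M 0 w * pf χ) = (φ true - φ false) / 2 * w := by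
      intro w
      have := avg_zero_fun fun b => sg b * w * φ b
      have e1 : M 0 w * pf χ = fun x => sg (x ⟨0, by norm_num⟩) * w * φ (x ⟨0, by norm_num⟩) := by
        ext x
        rw [Pi.mul_apply, M_zero, pf_zero]
      rw [e1, this]
      simp [sg]
      ring
    by_cases h1 : φ = 1
    · exact ⟨0, by simp, fun w => by rw [e]; simp [h1]⟩
    · refine ⟨C ((φ true - φ false) / 2) * X, ?_, fun w => by rw [e]; simp⟩
      refine (natDegree_C_mul_le _ _).trans (natDegree_X_le.trans ?_)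
      exact card_pos.mpr ⟨⟨0, by norm_num⟩, mem_filter.mpr ⟨mem_univ _, h1⟩⟩
  | succ h ih =>
    intro χ
    obtain ⟨p₀, d₀, e₀⟩ := ih fun i => χ (pos h 0 i)
    obtain ⟨p₁, d₁, e₁⟩ := ih fun i => χ (pos h 1 i)
    obtain ⟨p₂, d₂, e₂⟩ := ih fun i => χ (pos h 2 i)
    set a₀ := avg _ (pf fun i => χ (pos h 0 i))
    set a₁ := avg _ (pf fun i => χ (pos h 1 i))
    set a₂ := avg _ (pf fun i => χ (pos h 2 i))
    refine ⟨C (1 / 2) * (C (a₁ * a₂) * p₀ + C (a₀ * a₂) * p₁ + C (a₀ * a₁) * p₂ - p₀ * p₁ * p₂),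
      ?_, fun w => ?_⟩
    · rw [wt_split]
      refine (natDegree_C_mul_le _ _).trans ((natDegree_sub_le _ _).trans (max_le
        (natDegree_add_le_of_degree_le (natDegree_add_le_of_degree_le ?_ ?_) ?_) ?_))
      · exact (natDegree_C_mul_le _ _).trans (by omega)
      · exact (natDegree_C_mul_le _ _).trans (by omega)
      · exact (natDegree_C_mul_le _ _).trans (by omega)
      · exact natDegree_mul_le.trans (add_le_add (natDegree_mul_le.trans (add_le_add d₀ d₁)) d₂)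
    · rw [M_succ, pf_split, avg_MJ_T3, e₀, e₁, e₂]
      simp only [eval_mul, eval_sub, eval_add, eval_C]
      ring

open Chebyshev in
theorem weights (n : ℕ) {x : ℝ} (hx : 1 ≤ x) : ∃ c : ℕ → ℝ,
    (∀ p : ℝ[X], p.natDegree ≤ n → ∑ i ∈ range (n + 1), c i * p.eval (node n i) = p.eval x) ∧
      ∑ i ∈ range (n + 1), |c i| = (T ℝ n).eval x := by
  have key : ∀ p : ℝ[X], p.natDegree ≤ n → ∑ i ∈ range (n + 1),
      (Lagrange.basis (range (n + 1)) (node n ·) i).eval x * p.eval (node n i) = p.eval x := by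
    intro p hp
    have h1 : p.degree < (range (n + 1)).card := by
      rw [card_range]
      exact degree_le_natDegree.trans_lt (by exact_mod_cast Nat.lt_succ_of_le hp)
    conv_rhs => rw [Lagrange.eq_interpolate (strictAntiOn_node n).injOn h1]
    simp [Lagrange.interpolate_apply, eval_finsetSum, mul_comm]
  refine ⟨_, key, ?_⟩
  rw [← key (T ℝ n) (by simp)]
  refine sum_congr rfl fun i hi => ?_
  have hi' : i ≤ n := Nat.lt_succ_iff.mp (mem_range.mp hi)
  rw [eval_T_real_node (mem_Iic.mpr hi')]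
  have s : 0 ≤ (Lagrange.basis (range (n + 1)) (node n ·) i).eval x * (-1) ^ i := by
    have h1 := inv_pos.mpr (zero_lt_prod_node_sub_node hi')
    rw [mul_inv, ← inv_pow, inv_neg_one] at h1
    have h2 : 0 ≤ ∏ j ∈ (range (n + 1)).erase i, (x - node n j) :=
      prod_nonneg fun j _ => sub_nonneg.mpr (node_mem_Icc.2.trans hx)
    have := mul_nonneg h1.le h2
    simp only [Lagrange.basis, Lagrange.basisDivisor, eval_prod, eval_mul, eval_C, eval_sub,
      eval_X, prod_mul_distrib, prod_inv_distrib]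
    linarith
  rw [← abs_of_nonneg s, abs_mul, abs_neg_one_pow, mul_one]

theorem T_le (n : ℕ) {x : ℝ} (hx : 1 ≤ x) (h : (n : ℝ) ^ 2 * (x ^ 2 - 1) ≤ 2 / 5) :
    (Chebyshev.T ℝ n).eval x ≤ 5 / 4 := by
  have t0 : 0 ≤ Real.arcosh x := Real.arcosh_nonneg hx
  set t := Real.arcosh x with ht
  have c : Real.cosh t = x := Real.cosh_arcosh hx
  have s1 : t ≤ Real.sinh t := Real.self_le_sinh_iff.mpr t0
  have s2 : t ^ 2 ≤ x ^ 2 - 1 := by
    have := Real.cosh_sq t
    rw [c] at this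
    nlinarith
  rw [← c, Chebyshev.T_real_cosh]
  refine (Real.cosh_le_exp_half_sq _).trans ?_
  have s3 : (((n : ℤ) : ℝ) * t) ^ 2 / 2 ≤ 1 / 5 := by
    push_cast
    rw [mul_pow]
    have := mul_le_mul_of_nonneg_left s2 (sq_nonneg (n : ℝ))
    linarith
  refine (Real.exp_le_exp.mpr s3).trans ?_
  refine (Real.exp_bound_div_one_sub_of_interval (by norm_num) (by norm_num)).trans ?_
  norm_num

/-- A bounded function of pure degree at least `d` with correlation at least `δ`. -/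
def Wit (h d : ℕ) (δ : ℝ) : Prop :=
  ∃ ψ : Cube (3 ^ h) → ℝ, (∀ x, |ψ x| ≤ 1) ∧ (∀ χ, wt χ < d → avg _ (ψ * pf χ) = 0) ∧
    δ ≤ avg _ (ψ * f h)

theorem wit_base {h n : ℕ} (hh : 2 ≤ h) (hn : (n : ℝ) ^ 2 * (2 / 3) ^ h ≤ 1 / 20) :
    Wit h (n + 1) (2 / 27) := by
  set η : ℝ := (2 / 3) ^ h with hη
  have η0 : 0 < η := by positivity
  have η1 : η ≤ 1 / 2 :=
    (pow_le_pow_of_le_one (by norm_num) (by norm_num) hh).trans (by norm_num)
  set a : ℝ := (1 + 2 * η)⁻¹ with ha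
  have a0 : 0 < a := by positivity
  have a1 : a * (1 + 2 * η) = 1 := inv_mul_cancel₀ (by positivity)
  have a2 : a ≤ 1 - η := by
    rw [ha, inv_le_iff_one_le_mul₀ (by positivity)]
    nlinarith
  obtain ⟨c, c1, c2⟩ := weights n (x := 1 + 2 * η) (by linarith)
  have c3 : ∑ i ∈ range (n + 1), |c i| ≤ 5 / 4 := by
    rw [c2]
    refine T_le n (by linarith) ?_
    have : (1 + 2 * η) ^ 2 - 1 ≤ 6 * η := by nlinarith
    have := mul_le_mul_of_nonneg_left this (sq_nonneg (n : ℝ))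
    linarith
  have nd : ∀ i, |a * Chebyshev.node n i| ≤ 1 - η := fun i => by
    rw [abs_mul, abs_of_pos a0]
    have : |Chebyshev.node n i| ≤ 1 := abs_le.mpr Chebyshev.node_mem_Icc
    nlinarith
  have bd : ∀ (y : ℕ → ℝ) (b : ℝ), 0 ≤ b → (∀ i, |y i| ≤ b) →
      |∑ i ∈ range (n + 1), c i * y i| ≤ 5 / 4 * b := by
    intro y b hb hy
    refine (abs_sum_le_sum_abs _ _).trans (le_trans ?_ (mul_le_mul_of_nonneg_right c3 hb))
    rw [sum_mul]
    refine sum_le_sum fun i _ => ?_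
    rw [abs_mul]
    exact mul_le_mul_of_nonneg_left (hy i) (abs_nonneg _)
  refine ⟨(4 / 9 : ℝ) • (M h 1 - ∑ i ∈ range (n + 1), c i • M h (a * Chebyshev.node n i)),
    fun x => ?_, fun χ hχ => ?_, ?_⟩
  · have h1 := bd (fun i => M h (a * Chebyshev.node n i) x) 1 zero_le_one
      fun i => abs_M_le h ((nd i).trans (by linarith)) x
    have h2 := abs_M_le h (w := 1) (by simp) x
    simp only [Pi.smul_apply, Pi.sub_apply, Finset.sum_apply, smul_eq_mul]
    rw [abs_le] at h1 h2 ⊢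
    constructor <;> linarith [h1.1, h1.2, h2.1, h2.2]
  · obtain ⟨p, p1, p2⟩ := pure_deg h χ
    have := c1 (p.comp (C a * X)) (natDegree_comp_le.trans (by
      have : (C a * X : ℝ[X]).natDegree ≤ 1 := (natDegree_C_mul_le _ _).trans natDegree_X_le
      calc _ ≤ p.natDegree * 1 := Nat.mul_le_mul_left _ this
        _ ≤ n := by omega))
    simp only [eval_comp, eval_mul, eval_C, eval_X, a1] at this
    simp only [smul_mul_assoc, sub_mul, sum_mul, map_smul, map_sub, map_sum, p2, smul_eq_mul, this,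
      sub_self, mul_zero]
  · have g1 := (G_down h η ((3 / 2) ^ h) η0.le (by linarith) (by positivity)
      (by rw [hη, ← mul_pow]; norm_num)).2.2
    have g2 : η * (3 / 2) ^ h = 1 := by rw [hη, ← mul_pow]; norm_num
    rw [← hη, g2] at g1
    have h1 := bd (fun i => (G h).eval (a * Chebyshev.node n i)) (2 / 3) (by norm_num)
      fun i => (G_abs h (nd i)).trans (by linarith)
    simp only [← M_one, smul_mul_assoc, sub_mul, sum_mul, map_smul, map_sub, map_sum, corr,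
      smul_eq_mul, mul_one, G_one]
    linarith [(abs_le.mp h1).2]

theorem wit_step {h d : ℕ} {δ : ℝ} (hd : 1 ≤ d) (hδ : 0 ≤ δ) (hw : Wit h d δ) :
    Wit (h + 1) (3 * d) (δ ^ 3 / 2) := by
  obtain ⟨ψ, b, p, c⟩ := hw
  have z : avg _ ψ = 0 := by
    have := p 1 (by simpa [wt] using Nat.lt_of_succ_le hd)
    have e : pf (1 : Fin (3 ^ h) → Bool → ℝ) = 1 := by ext x; simp [pf]
    rwa [e, mul_one] at this
  refine ⟨-T3 h ψ ψ ψ, fun x => ?_, fun χ hχ => ?_, ?_⟩
  · simp only [Pi.neg_apply, abs_neg, T3, abs_mul]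
    exact mul_le_one₀ (mul_le_one₀ (b _) (abs_nonneg _) (b _)) (abs_nonneg _) (b _)
  · rw [pf_split, neg_mul, map_neg, T3_mul, avg_T3]
    rw [wt_split] at hχ
    by_cases h0 : wt (fun i => χ (pos h 0 i)) < d
    · simp [p _ h0]
    by_cases h1 : wt (fun i => χ (pos h 1 i)) < d
    · simp [p _ h1]
    simp [p _ (show wt (fun i => χ (pos h 2 i)) < d by omega)]
  · rw [neg_mul, map_neg, mul_comm, f_succ, avg_MJ_T3, z, mul_comm (f h)]
    have := pow_le_pow_left₀ hδ c 3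
    nlinarith

theorem wit_eps {h d k : ℕ} {δ : ℝ} (hw : Wit h d δ) (hk : max k 1 < d) :
    δ ≤ eps (R h) k (1 / 2) := by
  obtain ⟨ψ, b, p, c⟩ := hw
  have q1 := InA_of_pure (k := k) ψ b fun χ hχ => p χ (by omega)
  have q2 := InA_of_pure (k := k) (-ψ) (by simpa using b)
    fun χ hχ => by rw [neg_mul, map_neg, p χ (by omega), neg_zero]
  refine c.trans (le_trans (le_of_eq ?_) (eps_ge ⟨_, q1, rfl⟩ ⟨_, q2, rfl⟩))
  rw [prob_eq q1, prob_eq q2, avg_apply, sum_div]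
  change _ = (1 + ∑ x, f h x * _) / 2 - (1 + ∑ x, f h x * _) / 2
  rw [← sub_div, add_sub_add_left_eq_sub, ← sum_sub_distrib, sum_div]
  refine sum_congr rfl fun x _ => ?_
  simp only [Pi.mul_apply, Pi.neg_apply]
  ring

theorem wit_iter (m : ℕ) : ∃ δ : ℝ, 0 < δ ∧ ∀ h d, 1 ≤ d → Wit h d (2 / 27) →
    Wit (h + m) (3 ^ m * d) δ := by
  induction m with
  | zero => exact ⟨2 / 27, by norm_num, fun h d _ hw => by simpa using hw⟩
  | succ m ih =>
    obtain ⟨δ, h0, h1⟩ := ih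
    refine ⟨δ ^ 3 / 2, by positivity, fun h d hd hw => ?_⟩
    have := wit_step (Nat.mul_pos (by positivity) hd) h0.le (h1 h d hd hw)
    rwa [← mul_assoc, ← pow_succ'] at this

theorem eps_lower (A : ℝ) : ∃ δ : ℝ, 0 < δ ∧ ∃ h₀ : ℕ, ∀ h k : ℕ, h₀ ≤ h →
    (k : ℝ) ^ 2 ≤ A * (3 / 2) ^ h → δ ≤ eps (R h) k (1 / 2) := by
  obtain ⟨m, hm⟩ := pow_unbounded_of_one_lt (20 * max A 1) (by norm_num : (1 : ℝ) < 6)
  obtain ⟨δ, h0, h1⟩ := wit_iter m
  refine ⟨δ, h0, m + 2, fun h k hh hk => ?_⟩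
  obtain ⟨g, rfl⟩ : ∃ g, h = g + m := ⟨h - m, by omega⟩
  set y : ℝ := (3 / 2) ^ g / 20 with hy
  have y0 : 0 ≤ y := by positivity
  set n := ⌊√y⌋₊ with hn
  have n1 : (n : ℝ) ^ 2 ≤ y := by
    have := pow_le_pow_left₀ (by positivity) (Nat.floor_le (Real.sqrt_nonneg y)) 2
    rwa [Real.sq_sqrt y0] at this
  have n2 : y < ((n : ℝ) + 1) ^ 2 := by
    have := pow_lt_pow_left₀ (Nat.lt_floor_add_one √y) (Real.sqrt_nonneg y) two_ne_zero
    rwa [Real.sq_sqrt y0] at this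
  have g2 : (3 / 2 : ℝ) ^ g * (2 / 3) ^ g = 1 := by rw [← mul_pow]; norm_num
  have w := wit_base (h := g) (n := n) (by omega) (by
    have := mul_le_mul_of_nonneg_right n1 (show (0 : ℝ) ≤ (2 / 3) ^ g by positivity)
    rw [hy] at this
    linarith)
  refine wit_eps (h1 g (n + 1) (by omega) w) ?_
  have big : max A 1 * (3 / 2) ^ (g + m) < (((3 ^ m * (n + 1) : ℕ) : ℝ)) ^ 2 := by
    push_cast
    have e : ((3 : ℝ) ^ m) ^ 2 = 6 ^ m * (3 / 2) ^ m := by
      rw [← mul_pow, ← pow_mul, mul_comm m, pow_mul]; norm_num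
    rw [mul_pow, e, pow_add]
    have p1 : (0 : ℝ) < (3 / 2) ^ m := by positivity
    have p2 : (0 : ℝ) < (3 / 2) ^ g := by positivity
    calc max A 1 * ((3 / 2) ^ g * (3 / 2) ^ m) = 20 * max A 1 * (3 / 2) ^ m * y := by
          rw [hy]; ring
      _ ≤ 6 ^ m * (3 / 2) ^ m * y := by gcongr
      _ < _ := by gcongr
  have q1 : (1 : ℝ) ≤ (3 / 2) ^ (g + m) := one_le_pow₀ (by norm_num)
  have q2 : A * (3 / 2) ^ (g + m) ≤ max A 1 * (3 / 2) ^ (g + m) := by
    gcongr
    exact le_max_left _ _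
  have q3 : (1 : ℝ) * 1 ≤ max A 1 * (3 / 2) ^ (g + m) := by
    gcongr
    exact le_max_right _ _
  have r : ((max k 1 : ℕ) : ℝ) ^ 2 < (((3 ^ m * (n + 1) : ℕ) : ℝ)) ^ 2 := by
    rcases max_choice k 1 with e | e <;> rw [e]
    · linarith
    · push_cast at big ⊢
      linarith
  exact_mod_cast lt_of_pow_lt_pow_left₀ 2 (by positivity) r

end Pool.Agent.MP_28f1b9_co.H61
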