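import Pool.Agent.MP_28f1b9_co.H61.Graded

/-!
Upper bound: low degree truncations approximate iterated majority under every limited
independence law.
-/

namespace Pool.Agent.MP_28f1b9_co.H61

open Finset Polynomial

/-- A positive functional that agrees with `c` times the average in degree at most `k`. -/
structure Fool (n k : ℕ) (L : (Cube n → ℝ) →ₗ[ℝ] ℝ) (c : ℝ) : Prop where
  pos : ∀ φ : Cube n → ℝ, (∀ x, 0 ≤ φ x) → 0 ≤ L φ
  fool : ∀ φ ∈ Deg n k, L φ = c * avg n φ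

theorem Fool.mono {n k : ℕ} {L : (Cube n → ℝ) →ₗ[ℝ] ℝ} {c : ℝ} (hL : Fool n k L c)
    {φ ψ : Cube n → ℝ} (h : ∀ x, φ x ≤ ψ x) : L φ ≤ L ψ := by
  have := hL.pos (ψ - φ) fun x => sub_nonneg.mpr (h x)
  rw [map_sub] at this
  linarith

theorem fool_avg (n k : ℕ) : Fool n k (avg n) 1 :=
  ⟨fun _ h => avg_nonneg h, fun _ _ => (one_mul _).symm⟩

/-- The tensor product as a linear map in the first slot. -/
def Ta (h : ℕ) (ω : Cube (3 ^ h) → ℝ) : (Cube (3 ^ h) → ℝ) →ₗ[ℝ] (Cube (3 ^ (h + 1)) → ℝ) where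
  toFun φ := T3 h φ ω ω
  map_add' φ ψ := by ext x; simp [T3]; ring
  map_smul' c φ := by ext x; simp [T3]; ring

/-- The tensor product as a linear map in the second slot. -/
def Tb (h : ℕ) (ω : Cube (3 ^ h) → ℝ) : (Cube (3 ^ h) → ℝ) →ₗ[ℝ] (Cube (3 ^ (h + 1)) → ℝ) where
  toFun φ := T3 h ω φ ω
  map_add' φ ψ := by ext x; simp [T3]; ring
  map_smul' c φ := by ext x; simp [T3]; ring

/-- The tensor product as a linear map in the third slot. -/
def Tc (h : ℕ) (ω : Cube (3 ^ h) → ℝ) : (Cube (3 ^ h) → ℝ) →ₗ[ℝ] (Cube (3 ^ (h + 1)) → ℝ) where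
  toFun φ := T3 h ω ω φ
  map_add' φ ψ := by ext x; simp [T3]; ring
  map_smul' c φ := by ext x; simp [T3]; ring

theorem mj_tele {a b c p q r : ℝ} (ha : a ^ 2 = 1) (hb : b ^ 2 = 1) :
    (mj a b c - mj p q r) ^ 2 ≤ 3 * ((a - p) ^ 2 * (1 + q * q) * (1 + r * r) +
      (1 + p * p) * (b - q) ^ 2 * (1 + r * r) + (1 + p * p) * (1 + q * q) * (c - r) ^ 2) := by
  have e : mj a b c - mj p q r =
      (a - p) * ((1 - q * r) / 2) + (b - q) * ((1 - a * r) / 2) + (c - r) * ((1 - a * b) / 2) := by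
    unfold mj; ring
  have i1 : ((1 - q * r) / 2) ^ 2 ≤ (1 + q * q) * (1 + r * r) := by
    nlinarith [sq_nonneg (q + r), sq_nonneg q, sq_nonneg r, sq_nonneg (q * r)]
  have i2 : ((1 - a * r) / 2) ^ 2 ≤ (1 + p * p) * (1 + r * r) := by
    have : (a * r) ^ 2 = r ^ 2 := by rw [mul_pow, ha, one_mul]
    nlinarith [sq_nonneg (1 + a * r), sq_nonneg p, sq_nonneg r, sq_nonneg (p * r)]
  have i3 : ((1 - a * b) / 2) ^ 2 ≤ (1 + p * p) * (1 + q * q) := by
    have : (a * b) ^ 2 = 1 := by rw [mul_pow, ha, hb, one_mul]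
    nlinarith [sq_nonneg (1 + a * b), sq_nonneg p, sq_nonneg q, sq_nonneg (p * q)]
  have j1 := mul_le_mul_of_nonneg_left i1 (sq_nonneg (a - p))
  have j2 := mul_le_mul_of_nonneg_left i2 (sq_nonneg (b - q))
  have j3 := mul_le_mul_of_nonneg_left i3 (sq_nonneg (c - r))
  rw [← mul_pow] at j1 j2 j3
  rw [e]
  set A := (a - p) * ((1 - q * r) / 2)
  set B := (b - q) * ((1 - a * r) / 2)
  set D := (c - r) * ((1 - a * b) / 2)
  nlinarith [sq_nonneg (A - B), sq_nonneg (A - D), sq_nonneg (B - D)]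

theorem tele {h d k : ℕ} {e : ℝ} (he : 0 ≤ e)
    (ih : ∀ (L : (Cube (3 ^ h) → ℝ) →ₗ[ℝ] ℝ) (c : ℝ), 0 ≤ c → Fool _ k L c →
      L ((f h - P h d) ^ 2) ≤ c * e)
    (L : (Cube (3 ^ (h + 1)) → ℝ) →ₗ[ℝ] ℝ) (c : ℝ) (hc : 0 ≤ c) (hL : Fool _ (k + 4 * d) L c) :
    L ((f (h + 1) - MJ h (P h d)) ^ 2) ≤ c * (36 * e) := by
  set ω : Cube (3 ^ h) → ℝ := 1 + P h d * P h d with hω
  have ω0 : ∀ x, 0 ≤ ω x := fun x => add_nonneg zero_le_one (mul_self_nonneg _)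
  have ωd : ω ∈ Deg _ (d + d) :=
    Submodule.add_mem _ (one_mem_Deg _ _) (Deg_mul (P_mem h d) (P_mem h d))
  have a0 : 0 ≤ avg _ ω := avg_nonneg ω0
  have a2 : avg _ ω ≤ 2 := by
    rw [hω, map_add, avg_one, avg_P_P]
    linarith [(G_tail h d le_rfl).1]
  have c0 : 0 ≤ c * (avg _ ω * avg _ ω) := by positivity
  have c4 : c * (avg _ ω * avg _ ω) * e ≤ c * (2 * 2) * e := by gcongr
  have t1 := ih (L ∘ₗ Ta h ω) _ c0 ⟨fun φ hφ => hL.pos _ fun x =>
      mul_nonneg (mul_nonneg (hφ _) (ω0 _)) (ω0 _), fun φ hφ => by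
    refine (hL.fool (T3 h φ ω ω) (Deg_mono (by omega) (Deg_T3 h hφ ωd ωd))).trans ?_
    rw [avg_T3]; ring⟩
  have t2 := ih (L ∘ₗ Tb h ω) _ c0 ⟨fun φ hφ => hL.pos _ fun x =>
      mul_nonneg (mul_nonneg (ω0 _) (hφ _)) (ω0 _), fun φ hφ => by
    refine (hL.fool (T3 h ω φ ω) (Deg_mono (by omega) (Deg_T3 h ωd hφ ωd))).trans ?_
    rw [avg_T3]; ring⟩
  have t3 := ih (L ∘ₗ Tc h ω) _ c0 ⟨fun φ hφ => hL.pos _ fun x =>
      mul_nonneg (mul_nonneg (ω0 _) (ω0 _)) (hφ _), fun φ hφ => by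
    refine (hL.fool (T3 h ω ω φ) (Deg_mono (by omega) (Deg_T3 h ωd ωd hφ))).trans ?_
    rw [avg_T3]; ring⟩
  set E := (f h - P h d) ^ 2
  have m1 : L ((f (h + 1) - MJ h (P h d)) ^ 2) ≤
      L ((3 : ℝ) • (Ta h ω E + Tb h ω E + Tc h ω E)) := by
    refine hL.mono fun x => ?_
    rw [f_succ]
    exact mj_tele (f_sq h _) (f_sq h _)
  rw [map_smul, map_add, map_add, smul_eq_mul] at m1
  simp only [LinearMap.comp_apply] at t1 t2 t3
  linarith

/-- The degree scale. -/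
noncomputable def mm (h : ℕ) : ℕ := ⌈(7 / 3 : ℝ) * (3 / 2) ^ h⌉₊

theorem mm_le (h : ℕ) : (mm h : ℝ) ≤ 4 * (3 / 2) ^ h := by
  have h1 : (1 : ℝ) ≤ (3 / 2) ^ h := one_le_pow₀ (by norm_num)
  have := Nat.ceil_lt_add_one (show (0 : ℝ) ≤ (7 / 3 : ℝ) * (3 / 2) ^ h by positivity)
  unfold mm
  linarith

theorem one_le_mm (h : ℕ) : 1 ≤ mm h := Nat.one_le_iff_ne_zero.mpr <| by
  have : (0 : ℝ) < (7 / 3 : ℝ) * (3 / 2) ^ h := by positivity
  exact (Nat.ceil_pos.mpr this).ne'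

theorem avg_tail (h s : ℕ) : avg _ ((f h - P h (mm h * s)) ^ 2) ≤ 2 / 2 ^ s := by
  set d := mm h * s
  have e : (f h - P h d) ^ 2 = 1 - (2 : ℝ) • (f h * P h d) + P h d * P h d := by
    ext x
    have := f_sq h x
    simp only [Pi.pow_apply, Pi.sub_apply, Pi.add_apply, Pi.smul_apply, Pi.mul_apply,
      Pi.one_apply, smul_eq_mul]
    linear_combination this
  rw [e, map_add, map_sub, map_smul, avg_one, avg_f_P, avg_P_P, smul_eq_mul]
  set u : ℝ := ((7 / 3 : ℝ) * (3 / 2) ^ h)⁻¹ with hu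
  have p0 : (0 : ℝ) < (7 / 3 : ℝ) * (3 / 2) ^ h := by positivity
  have u0 : 0 ≤ u := by positivity
  have u1 : u * ((7 / 3 : ℝ) * (3 / 2) ^ h) = 1 := inv_mul_cancel₀ p0.ne'
  obtain ⟨t0, t1⟩ := G_tail h d (w := 1 + u) (by linarith)
  have g2 := (G_up h u u0 1 le_rfl (by nlinarith)).2
  have b1 : (2 : ℝ) ≤ (1 + u) ^ mm h := by
    have h1 := one_add_mul_le_pow (a := u) (by linarith) (mm h)
    have h2 : (7 / 3 : ℝ) * (3 / 2) ^ h ≤ mm h := Nat.le_ceil _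
    nlinarith
  have b2 : (2 : ℝ) ^ s ≤ (1 + u) ^ d := by
    rw [pow_mul]
    gcongr
  rw [le_div_iff₀ (by positivity)]
  have := mul_le_mul_of_nonneg_left b2 t0
  linarith

theorem MJ_mem {h d : ℕ} {a : Cube (3 ^ h) → ℝ} (ha : a ∈ Deg _ d) :
    MJ h a ∈ Deg _ (3 * d) := by
  rw [MJ_eq]
  have o := one_mem_Deg (3 ^ h) d
  have e : 3 * d = d + d + d := by ring
  rw [e]
  exact Submodule.smul_mem _ _ (Submodule.sub_mem _ (Submodule.add_mem _ (Submodule.add_mem _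
    (Deg_T3 h ha o o) (Deg_T3 h o ha o)) (Deg_T3 h o o ha)) (Deg_T3 h ha ha ha))

theorem up (h : ℕ) : ∀ s k : ℕ, 1 ≤ s → 32 * (3 / 2 : ℝ) ^ h * (s + 27) ≤ k →
    ∀ (L : (Cube (3 ^ h) → ℝ) →ₗ[ℝ] ℝ) (c : ℝ), 0 ≤ c → Fool _ k L c →
      L ((f h - P h (mm h * s)) ^ 2) ≤ c * (16 / 2 ^ s) := by
  induction h with
  | zero =>
    intro s k hs hk L c hc hL
    have f1 : f 0 ∈ Deg _ (mm 0 * s) := by
      have : f 0 = pf fun _ => sg := by ext x; rw [pf_zero]; rfl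
      rw [this]
      refine pf_mem ((card_le_univ _).trans ?_)
      simpa using Nat.mul_le_mul (one_le_mm 0) hs
    have f2 := Submodule.sub_mem _ f1 (P_mem 0 (mm 0 * s))
    have dk : mm 0 * s + mm 0 * s ≤ k := by
      have h1 := mm_le 0
      have h2 : (0 : ℝ) ≤ s := by positivity
      have : ((mm 0 * s + mm 0 * s : ℕ) : ℝ) ≤ k := by
        push_cast
        simp only [pow_zero] at h1 hk
        nlinarith
      exact_mod_cast this
    rw [hL.fool _ (by rw [sq]; exact Deg_mono dk (Deg_mul f2 f2))]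
    refine mul_le_mul_of_nonneg_left ((avg_tail 0 s).trans ?_) hc
    gcongr
    norm_num
  | succ h ih =>
    intro s k hs hk L c hc hL
    set d := mm h * (s + 9) with hd
    set d' := mm (h + 1) * s with hd'
    have s0 : (0 : ℝ) ≤ s := by positivity
    have q0 : (0 : ℝ) < (3 / 2) ^ h := by positivity
    have dle : (d : ℝ) ≤ 4 * (3 / 2) ^ h * (s + 9) := by
      rw [hd]; push_cast
      gcongr
      exact mm_le h
    have dle' : (d' : ℝ) ≤ 4 * (3 / 2) ^ (h + 1) * s := by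
      rw [hd']; push_cast
      gcongr
      exact mm_le (h + 1)
    rw [pow_succ] at hk dle'
    have k6 : 6 * d ≤ k := by
      have : ((6 * d : ℕ) : ℝ) ≤ k := by push_cast; nlinarith
      exact_mod_cast this
    have k2 : 2 * d' ≤ k := by
      have : ((2 * d' : ℕ) : ℝ) ≤ k := by push_cast; nlinarith
      exact_mod_cast this
    obtain ⟨k', rfl⟩ : ∃ k', k = k' + 4 * d := ⟨k - 4 * d, by omega⟩
    have hk' : 32 * (3 / 2 : ℝ) ^ h * ((s + 9 : ℕ) + 27) ≤ k' := by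
      push_cast at hk ⊢
      nlinarith
    have ih' := ih (s + 9) k' (by omega) hk'
    have t1 := tele (by positivity) ih' L c hc hL
    have t2 := tele (by positivity) ih' (avg _) 1 zero_le_one (fool_avg _ _)
    have t3 := avg_tail (h + 1) s
    rw [← hd'] at t3
    set A := f (h + 1)
    set B := MJ h (P h d)
    set D := P (h + 1) d'
    have bd : B - D ∈ Deg _ (max (3 * d) d') :=
      Submodule.sub_mem _ (Deg_mono (le_max_left _ _) (MJ_mem (P_mem h d)))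
        (Deg_mono (le_max_right _ _) (P_mem _ _))
    have m1 : L ((A - D) ^ 2) ≤ L ((2 : ℝ) • ((A - B) ^ 2 + (B - D) ^ 2)) := by
      refine hL.mono fun x => ?_
      simp only [Pi.pow_apply, Pi.sub_apply, Pi.add_apply, Pi.smul_apply, smul_eq_mul]
      nlinarith [sq_nonneg (A x - 2 * B x + D x)]
    have m2 : avg _ ((B - D) ^ 2) ≤ avg _ ((2 : ℝ) • ((A - B) ^ 2 + (A - D) ^ 2)) := by
      refine avg_mono fun x => ?_
      simp only [Pi.pow_apply, Pi.sub_apply, Pi.add_apply, Pi.smul_apply, smul_eq_mul]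
      nlinarith [sq_nonneg (2 * A x - B x - D x)]
    rw [map_smul, map_add, smul_eq_mul] at m1 m2
    rw [hL.fool ((B - D) ^ 2) (by rw [sq]; exact Deg_mono (by omega) (Deg_mul bd bd))] at m1
    have e9 : (16 : ℝ) / 2 ^ (s + 9) = 1 / 32 * (1 / 2 ^ s) := by
      rw [pow_add]; field_simp; norm_num
    have e16 : (16 : ℝ) / 2 ^ s = 16 * (1 / 2 ^ s) := by ring
    have e2 : (2 : ℝ) / 2 ^ s = 2 * (1 / 2 ^ s) := by ring
    rw [e9] at t1 t2
    rw [e2] at t3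
    rw [e16]
    set z : ℝ := 1 / 2 ^ s
    have z0 : 0 ≤ z := by positivity
    have m3 : avg _ ((B - D) ^ 2) ≤ 25 / 4 * z := by linarith
    have m4 := mul_le_mul_of_nonneg_left m3 hc
    have cz : 0 ≤ c * z := by positivity
    nlinarith

theorem prob_eq {h k : ℕ} {Q : Cube (3 ^ h) → ℝ} (hQ : InA _ k (1 / 2) Q) :
    prob Q (fun x => R h x = true) = (1 + ex Q (f h)) / 2 := by
  rw [← hQ.total, prob]
  change _ = (_ + ∑ x, f h x * Q x) / 2
  rw [← sum_add_distrib, sum_div]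
  refine sum_congr rfl fun x _ => ?_
  unfold f sg
  cases R h x <;> simp

theorem bias_le {h s k : ℕ} (hs : 1 ≤ s) (hk : 32 * (3 / 2 : ℝ) ^ h * (2 * s + 27) ≤ k)
    {Q : Cube (3 ^ h) → ℝ} (hQ : InA _ k (1 / 2) Q) : |ex Q (f h)| ≤ 4 / 2 ^ s := by
  have hF : Fool _ k (ex Q) 1 := ⟨fun φ hφ => sum_nonneg fun x _ =>
    mul_nonneg (hφ x) (hQ.nonneg x), fun φ hφ => by rw [hQ.fool hφ, one_mul]⟩
  have u := up h (2 * s) k (by omega) (by push_cast; exact hk) _ 1 zero_le_one hF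
  set d := mm h * (2 * s) with hd
  have dk : d ≤ k := by
    have h1 := mm_le h
    have s0 : (0 : ℝ) ≤ s := by positivity
    have q0 : (0 : ℝ) < (3 / 2) ^ h := by positivity
    have : ((mm h * (2 * s) : ℕ) : ℝ) ≤ k := by push_cast; nlinarith
    exact_mod_cast this
  have p0 : ex Q (P h d) = 0 := by rw [hQ.fool (Deg_mono dk (P_mem h d)), avg_P]
  have o1 : ex Q 1 = 1 := by rw [hQ.fool (one_mem_Deg _ _), avg_one]
  set b := ex Q (f h) with hb
  have v := hF.pos ((f h - P h d - b • (1 : Cube (3 ^ h) → ℝ)) ^ 2) fun x => sq_nonneg _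
  have e : (f h - P h d - b • (1 : Cube (3 ^ h) → ℝ)) ^ 2 =
      (f h - P h d) ^ 2 - (2 * b) • (f h - P h d) + (b ^ 2) • (1 : Cube (3 ^ h) → ℝ) := by
    ext x
    simp only [Pi.pow_apply, Pi.sub_apply, Pi.add_apply, Pi.smul_apply, smul_eq_mul, Pi.one_apply]
    ring
  rw [e] at v
  simp only [map_add, map_sub, map_smul, p0, o1, smul_eq_mul, ← hb] at v
  refine abs_le_of_sq_le_sq' ?_ (by positivity) |> abs_le.mpr
  have : (4 / 2 ^ s : ℝ) ^ 2 = 16 / 2 ^ (2 * s) := by rw [div_pow, ← pow_mul, mul_comm s]; norm_num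
  rw [this]
  nlinarith

theorem vals_nonempty {n : ℕ} (g : Cube n → Bool) (k : ℕ) : (vals g k (1 / 2)).Nonempty :=
  ⟨_, _, InA_of_pure (k := k) 0 (by simp) (by simp), rfl⟩

theorem vals_bound {n k : ℕ} {g : Cube n → Bool} {t : ℝ} (ht : t ∈ vals g k (1 / 2)) :
    0 ≤ t ∧ t ≤ 1 := by
  obtain ⟨Q, hQ, rfl⟩ := ht
  have := hQ.nonneg
  refine ⟨sum_nonneg fun x _ => ?_, hQ.total ▸ sum_le_sum fun x _ => ?_⟩ <;> split_ifs <;>
    simp [this x]

theorem eps_ge {n k : ℕ} {g : Cube n → Bool} {a b : ℝ} (ha : a ∈ vals g k (1 / 2))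
    (hb : b ∈ vals g k (1 / 2)) : a - b ≤ eps g k (1 / 2) :=
  sub_le_sub (le_csSup ⟨1, fun _ ht => (vals_bound ht).2⟩ ha)
    (csInf_le ⟨0, fun _ ht => (vals_bound ht).1⟩ hb)

theorem eps_nonneg {n : ℕ} (g : Cube n → Bool) (k : ℕ) : 0 ≤ eps g k (1 / 2) := by
  obtain ⟨a, ha⟩ := vals_nonempty g k
  simpa using eps_ge ha ha

theorem eps_le {h s k : ℕ} (hs : 1 ≤ s) (hk : 32 * (3 / 2 : ℝ) ^ h * (2 * s + 27) ≤ k) :
    eps (R h) k (1 / 2) ≤ 4 / 2 ^ s := by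
  have b : ∀ t ∈ vals (R h) k (1 / 2), (1 - 4 / 2 ^ s) / 2 ≤ t ∧ t ≤ (1 + 4 / 2 ^ s) / 2 := by
    rintro _ ⟨Q, hQ, rfl⟩
    have := abs_le.mp (bias_le hs hk hQ)
    rw [prob_eq hQ]
    constructor <;> linarith [this.1, this.2]
  have h1 := csSup_le (vals_nonempty (R h) k) fun t ht => (b t ht).2
  have h2 := le_csInf (vals_nonempty (R h) k) fun t ht => (b t ht).1
  unfold eps
  linarith

end Pool.Agent.MP_28f1b9_co.H61
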